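import Pool.Agent.MP_ea150c_mp.H49.SpecV

/-! Vanishing slopes force a trivial deformation. -/

namespace Pool.Agent.MP_ea150c_mp.H61

open Pool.Agent.MP_ea150c_mp.H49

set_option linter.unusedSectionVars false

section
variable {I E : Type} [LinearOrder I] [Fintype I] [Fintype E] [DecidableEq E] {G : PG I E}
  {K : Type} [Field K]

theorem adj_symm {u v : I} (h : G.Adj u v) : G.Adj v u := by
  obtain ⟨e, h | h⟩ := h
  · exact ⟨e, Or.inr h⟩
  · exact ⟨e, Or.inl h⟩

theorem adj_ne (hG : G.Good) {u v : I} (h : G.Adj u v) : u ≠ v := by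
  rintro rfl
  obtain ⟨e, h | h⟩ := h <;> exact hG.noloop e (h.1.trans h.2.symm)

theorem exists_new (hG : G.Good) (a b c : I) : ∃ d, d ≠ a ∧ d ≠ b ∧ d ≠ c := by
  by_contra hc
  have h1 : (Finset.univ : Finset I) ⊆ {a, b, c} := by
    intro d _
    by_contra hd
    simp only [Finset.mem_insert, Finset.mem_singleton, not_or] at hd
    exact hc ⟨d, hd⟩
  have h2 := Finset.card_le_card h1
  have h3 : ({a, b, c} : Finset I).card ≤ 3 := Finset.card_le_three
  have h4 := hG.four
  rw [Finset.card_univ] at h2
  omega

/-- The configuration that tests one edge. -/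
def ptE (K : Type) [Field K] (u v w z : I) : Pt I K where
  al := fun _ => 1
  be := fun _ => 0
  X := fun j => if j = w then 0 else if j = z then ![0, 1, -1, 0] else ![1, 0, 0, 0]
  w := w
  ρ := fun j => if j = u ∨ j = v then -1 else 0
  t := fun i j => if (i = u ∧ j = v) ∨ (i = v ∧ j = u) then 1 else 0

theorem sum_tE {u v : I} (huv : u ≠ v) (w z j : I) (f : I → K) :
    ∑ i, (ptE K u v w z).t i j * f i =
      (if j = v then f u else 0) + (if j = u then f v else 0) := by
  have : ∀ i, (ptE K u v w z).t i j * f i =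
      (if i = u then (if j = v then f u else 0) else 0) +
        (if i = v then (if j = u then f v else 0) else 0) := by
    intro i
    simp only [ptE]
    by_cases h1 : i = u <;> by_cases h2 : i = v <;> by_cases h3 : j = v <;> by_cases h4 : j = u <;>
      simp_all
  simp only [this, Finset.sum_add_distrib, Finset.sum_ite_eq', Finset.mem_univ, if_true]

theorem edge (hG : G.Good) (S : I → I → K) (H : ∀ P : Pt I K, P.Good G → P.slope S = 0)
    {u v : I} (h : G.Adj u v) : (S u v - S v v) + (S v u - S u u) = 0 := by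
  have huv := adj_ne hG h
  obtain ⟨w, hwu, hwv, -⟩ := exists_new hG u v v
  obtain ⟨z, hzu, hzv, hzw⟩ := exists_new hG u v w
  have Xu : (ptE K u v w z).X u = ![1, 0, 0, 0] := by simp [ptE, hwu.symm, hzu.symm]
  have Xv : (ptE K u v w z).X v = ![1, 0, 0, 0] := by simp [ptE, hwv.symm, hzv.symm]
  have Xz : (ptE K u v w z).X z = ![0, 1, -1, 0] := by simp [ptE, hzw]
  have tc : ∀ i j, (ptE K u v w z).t i j ≠ 0 → (i = u ∧ j = v) ∨ (i = v ∧ j = u) := by
    intro i j hij
    by_contra hc
    exact hij (if_neg hc)
  have rc : ∀ j, (ptE K u v w z).ρ j = -((if j = v then 1 else 0) + (if j = u then 1 else 0)) := by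
    intro j
    simp only [ptE]
    by_cases h3 : j = v <;> by_cases h4 : j = u <;> simp_all
  have good : (ptE K u v w z).Good G := by
    refine ⟨by simp [ptE], by simp [ptE], ?_, ?_, ?_, ?_, ?_, ?_, ?_, ?_, ?_, ?_⟩
    · intro j hj
      have hj' : j ≠ w := hj
      by_cases hz : j = z
      · exact ⟨1, by decide, by rw [hz, Xz]; simp⟩
      · exact ⟨0, by decide, by simp [ptE, hj', hz]⟩
    · exact Submodule.subset_span (Set.mem_insert_of_mem _ ⟨u, Xu⟩)
    · exact Submodule.subset_span (Set.mem_insert_of_mem _ ⟨z, Xz⟩)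
    · intro i j
      simp only [ptE]
      congr 1
      exact propext ⟨fun h => h.symm.imp And.symm And.symm, fun h => h.symm.imp And.symm And.symm⟩
    · intro i j hij
      rcases tc i j hij with ⟨rfl, rfl⟩ | ⟨rfl, rfl⟩
      · exact h
      · exact adj_symm h
    · intro j hj
      have : j = u ∨ j = v := by
        by_contra hc
        exact hj (if_neg hc)
      rcases this with rfl | rfl
      · rw [Xu]; simp [ptE]
      · rw [Xv]; simp [ptE]
    · intro i j hij
      rcases tc i j hij with ⟨rfl, rfl⟩ | ⟨rfl, rfl⟩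
      · rw [Xu, Xv]; simp [ptE]
      · rw [Xu, Xv]; simp [ptE]
    · intro j
      rw [sum_tE huv, rc]
      simp only [ptE]
      ring
    · intro j
      simp [ptE]
    · intro j r
      rw [sum_tE huv w z j (fun i => (ptE K u v w z).X i r), rc]
      by_cases h3 : j = v
      · subst h3
        simp [Xu, Xv, huv.symm]
      · by_cases h4 : j = u
        · subst h4
          simp [Xu, Xv, h3]
        · simp [h3, h4]
  have hs := H _ good
  unfold Pt.slope at hs
  rw [Finset.sum_comm] at hs
  have : ∀ j, ∑ i, (ptE K u v w z).t i j * (ptE K u v w z).al i * (ptE K u v w z).X j 0 *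
      (S i j - S j j) = (if j = v then S u v - S v v else 0) +
        (if j = u then S v u - S u u else 0) := by
    intro j
    have h0 := sum_tE huv w z j
      (fun i => (ptE K u v w z).al i * (ptE K u v w z).X j 0 * (S i j - S j j))
    simp only [← mul_assoc] at h0
    rw [h0]
    congr 1
    · split_ifs with h3
      · subst h3; rw [Xv]; simp [ptE]
      · rfl
    · split_ifs with h3
      · subst h3; rw [Xu]; simp [ptE]
      · rfl
  simpa only [this, Finset.sum_add_distrib, Finset.sum_ite_eq', Finset.mem_univ, if_true] using hs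

/-- The configuration that tests one circulation. -/
def ptC (q : I → K) (z : I) (φ : I → I → K) : Pt I K where
  al := fun _ => 1
  be := fun _ => 1
  X := fun j => if j = z then 0 else ![q j, 1, -1, 0]
  w := z
  ρ := fun j => -∑ i, φ i j / (q j - q i)
  t := fun i j => φ i j / (q j - q i)

theorem circ (hG : G.Good) [Infinite K] (S : I → I → K)
    (H : ∀ P : Pt I K, P.Good G → P.slope S = 0) (z : I) (φ : I → I → K)
    (anti : ∀ u v, φ u v + φ v u = 0) (supp : ∀ u v, φ u v ≠ 0 → G.Adj u v ∧ u ≠ z ∧ v ≠ z)
    (div : ∀ v, ∑ u, φ u v = 0) : ∑ u, ∑ v, φ u v * (S u v - S v v) = 0 := by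
  obtain ⟨q, hq⟩ : ∃ q : I → K, Function.Injective q :=
    ⟨fun i => Infinite.natEmbedding K (Fintype.equivFin I i),
      (Infinite.natEmbedding K).injective.comp
        (Fin.val_injective.comp (Fintype.equivFin I).injective)⟩
  have Xj : ∀ j, j ≠ z → (ptC q z φ).X j = ![q j, 1, -1, 0] := fun j hj => if_neg hj
  have tc : ∀ i j, (ptC q z φ).t i j ≠ 0 → G.Adj i j ∧ i ≠ z ∧ j ≠ z := by
    intro i j hij
    refine supp i j fun h0 => hij ?_
    simp [ptC, h0]
  have tq : ∀ i j, (ptC q z φ).t i j * (q j - q i) = φ i j := by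
    intro i j
    by_cases h0 : φ i j = 0
    · simp [ptC, h0]
    · have hne : q j - q i ≠ 0 := sub_ne_zero.2 fun h => adj_ne hG (supp i j h0).1 (hq h).symm
      exact div_mul_cancel₀ _ hne
  have ts : ∀ i j, (ptC q z φ).t i j = (ptC q z φ).t j i := by
    intro i j
    change φ i j / (q j - q i) = φ j i / (q i - q j)
    rw [eq_neg_of_add_eq_zero_left (anti i j), ← neg_sub (q i) (q j), neg_div_neg_eq]
  have rc : ∀ j, (ptC q z φ).ρ j = -∑ i, (ptC q z φ).t i j := fun _ => rfl
  obtain ⟨a, haz, -, -⟩ := exists_new hG z z z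
  obtain ⟨b, hbz, hba, -⟩ := exists_new hG z a a
  have mem : ∀ j, j ≠ z → (![q j, 1, -1, 0] : Fin 4 → K) ∈
      Submodule.span K (insert ![0, 0, 0, 1] (Set.range (ptC q z φ).X)) := fun j hj =>
    Submodule.subset_span (Set.mem_insert_of_mem _ ⟨j, Xj j hj⟩)
  have spc : (![1, 0, 0, 0] : Fin 4 → K) ∈
      Submodule.span K (insert ![0, 0, 0, 1] (Set.range (ptC q z φ).X)) := by
    have hne : q b - q a ≠ 0 := sub_ne_zero.2 fun h => hba (hq h)
    have := Submodule.smul_mem _ (q b - q a)⁻¹ (sub_mem (mem b hbz) (mem a haz))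
    convert this using 1
    ext r
    fin_cases r <;> simp [hne]
  have good : (ptC q z φ).Good G := by
    refine ⟨by simp [ptC], by simp [ptC], ?_, spc, ?_, ts, fun i j h => (tc i j h).1,
      ?_, ?_, ?_, ?_, ?_⟩
    · intro j hj
      exact ⟨1, by decide, by rw [Xj j hj]; simp⟩
    · have := sub_mem (mem a haz) (Submodule.smul_mem _ (q a) spc)
      convert this using 1
      ext r
      fin_cases r <;> simp
    · intro j hj
      have hjz : j ≠ z := by
        rw [rc, neg_ne_zero] at hj
        obtain ⟨i, -, hi⟩ := Finset.exists_ne_zero_of_sum_ne_zero hj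
        exact (tc i j hi).2.2
      rw [Xj j hjz]
      simp [ptC]
    · intro i j hij
      rw [Xj i (tc i j hij).2.1, Xj j (tc i j hij).2.2]
      simp [ptC]
    · intro j
      rw [rc]
      simp [ptC]
    · intro j
      rw [rc]
      simp [ptC]
    · intro j r
      rw [rc, neg_mul, Finset.sum_mul, neg_add_eq_sub, ← Finset.sum_sub_distrib]
      have : ∀ i, (ptC q z φ).t i j * (ptC q z φ).X i r - (ptC q z φ).t i j * (ptC q z φ).X j r =
          -(if r = 0 then φ i j else 0) := by
        intro i
        rw [← tq i j]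
        by_cases h0 : (ptC q z φ).t i j = 0
        · simp [h0]
        · rw [Xj i (tc i j h0).2.1, Xj j (tc i j h0).2.2]
          fin_cases r <;> simp
          ring
      simp only [this, Finset.sum_neg_distrib]
      split_ifs
      · rw [div, neg_zero]
      · simp
  have hs := H _ good
  have h1 : (ptC q z φ).slope S = ∑ u, ∑ v, (ptC q z φ).t u v * q v * (S u v - S v v) := by
    refine Finset.sum_congr rfl fun u _ => Finset.sum_congr rfl fun v _ => ?_
    by_cases h0 : (ptC q z φ).t u v = 0
    · simp [h0]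
    · rw [Xj v (tc u v h0).2.2]
      simp [ptC]
  have h2 : (ptC q z φ).slope S = ∑ u, ∑ v, -((ptC q z φ).t u v * q u * (S u v - S v v)) := by
    rw [h1, Finset.sum_comm]
    refine Finset.sum_congr rfl fun u _ => Finset.sum_congr rfl fun v _ => ?_
    rw [ts v u]
    by_cases h0 : (ptC q z φ).t u v = 0
    · simp [h0]
    · rw [eq_neg_of_add_eq_zero_right (edge hG S H (tc u v h0).1)]
      ring
  have h3 : ∑ u, ∑ v, φ u v * (S u v - S v v) = (ptC q z φ).slope S + (ptC q z φ).slope S := by
    nth_rewrite 1 [h1]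
    rw [h2, ← Finset.sum_add_distrib]
    refine Finset.sum_congr rfl fun u _ => ?_
    rw [← Finset.sum_add_distrib]
    refine Finset.sum_congr rfl fun v _ => ?_
    rw [← tq u v]
    ring
  rw [h3, hs, add_zero]

end

theorem va (vg : VG) : VA := by
  intro I E _ _ _ _ G hG p _ hp s H
  let c : ZMod p →+* AlgebraicClosure (ZMod p) := ZMod.castHom (dvd_refl p) _
  have hc : Function.Injective c := c.injective
  have hz : ∀ x, zk p (AlgebraicClosure (ZMod p)) x = c (PadicInt.toZMod x) := fun _ => rfl
  have h2 : (2 : ZMod p) ≠ 0 := by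
    intro h
    have h' : ((2 : ℕ) : ZMod p) = 0 := by exact_mod_cast h
    rw [ZMod.natCast_eq_zero_iff] at h'
    have := Nat.le_of_dvd (by norm_num) h'
    omega
  obtain ⟨a, ha⟩ := vg I E G hG (ZMod p) h2
    (fun u v => PadicInt.toZMod (s u v) - PadicInt.toZMod (s v v)) (fun u v h => by
      apply hc
      have := edge hG _ H h
      simp only [hz] at this
      simpa only [map_add, map_sub, map_zero] using this) (fun z φ anti supp div => by
      apply hc
      have := circ hG _ H z (fun u v => c (φ u v))
        (fun u v => by rw [← map_add, anti, map_zero])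
        (fun u v h => supp u v fun h0 => h (by rw [h0, map_zero]))
        (fun v => by rw [← map_sum, div, map_zero])
      simp only [hz] at this
      simpa only [map_sum, map_mul, map_sub, map_zero] using this)
  refine ⟨fun u => ((a u).val : ℤ_[p]), fun v => s v v - ((a v).val : ℤ_[p]), fun u v h => ?_⟩
  rw [← Ideal.mem_span_singleton, ← PadicInt.maximalIdeal_eq_span_p, ← PadicInt.ker_toZMod,
    RingHom.mem_ker]
  rcases h with rfl | h
  · simp
  · have := ha u v h
    simp only [map_sub, map_add, map_natCast, ZMod.natCast_zmod_val]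
    linear_combination this

end Pool.Agent.MP_ea150c_mp.H61
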